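import Pool.Agent.N65.GP.Defs2

set_option autoImplicit false

/-!
Project GP+ (helper65), leaf IRR: residues on an irreducible curve (helper543).
-/

namespace Pool.Agent.N543.GP2

section algebra

open Polynomial

/-- the quotient `(P(a) - P(y)) / (a - y)` at `x` -/
noncomputable def Q (P : Polynomial ℂ[X]) (x y a : ℂ) : ℂ :=
  ∑ k ∈ Finset.range (P.natDegree + 1), (P.coeff k).eval x *
    ∑ e ∈ Finset.range k, a ^ e * y ^ (k - 1 - e)

theorem evalEval_eq (P : Polynomial ℂ[X]) (x y : ℂ) :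
    P.evalEval x y = ∑ k ∈ Finset.range (P.natDegree + 1), (P.coeff k).eval x * y ^ k := by
  have h1 := eval_eq_sum_range (p := P) (C y)
  rw [evalEval, h1, eval_finsetSum]
  refine Finset.sum_congr rfl fun k _ => ?_
  rw [eval_mul, eval_pow, eval_C]

theorem Q_mul (P : Polynomial ℂ[X]) (x y a : ℂ) :
    Q P x y a * (a - y) = P.evalEval x a - P.evalEval x y := by
  rw [Q, evalEval_eq, evalEval_eq, Finset.sum_mul, ← Finset.sum_sub_distrib]
  refine Finset.sum_congr rfl fun k _ => ?_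
  rw [mul_assoc, geom_sum₂_mul, mul_sub]

theorem Q_self (P : Polynomial ℂ[X]) (x y : ℂ) :
    Q P x y y = (derivative P).evalEval x y := by
  have h1 : derivative P = ∑ k ∈ Finset.range (P.natDegree + 1),
      C (P.coeff k * (k : ℂ[X])) * X ^ (k - 1) := by
    conv_lhs => rw [P.as_sum_range_C_mul_X_pow]
    rw [derivative_sum]
    refine Finset.sum_congr rfl fun k _ => ?_
    rw [derivative_C_mul_X_pow]
  rw [Q, h1, evalEval, eval_finsetSum, eval_finsetSum]
  refine Finset.sum_congr rfl fun k _ => ?_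
  rw [geom_sum₂_self, eval_mul, eval_C, eval_pow, eval_X, eval_mul, eval_mul, eval_pow, eval_C,
    eval_natCast]
  ring

/-- the trace form -/
noncomputable def Bp (P : Polynomial ℂ[X]) (w : ℕ → ℂ[X]) : Polynomial ℂ[X] :=
  ∑ k ∈ Finset.range (P.natDegree + 1), ∑ e ∈ Finset.range k,
    C (P.coeff k * w e) * X ^ (k - 1 - e)

theorem Bp_degree (P : Polynomial ℂ[X]) (hP : P ≠ 0) (w : ℕ → ℂ[X]) :
    (Bp P w).degree < P.degree := by
  rw [degree_eq_natDegree hP, degree_lt_iff_coeff_zero]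
  intro m hm
  rw [Bp, finsetSum_coeff]
  refine Finset.sum_eq_zero fun k hk => ?_
  rw [finsetSum_coeff]
  refine Finset.sum_eq_zero fun e he => ?_
  rw [Finset.mem_range] at hk he
  rw [coeff_C_mul_X_pow, if_neg]
  omega

theorem Bp_eval {ι : Type} [Fintype ι] (P : Polynomial ℂ[X]) (w : ℕ → ℂ[X]) (β Y : ι → ℂ) (x : ℂ)
    (hw : ∀ e, (w e).eval x = ∑ i, β i * Y i ^ e) (y : ℂ) :
    (Bp P w).evalEval x y = ∑ i, β i * Q P x y (Y i) := by
  rw [Bp, evalEval, eval_finsetSum, eval_finsetSum]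
  simp only [Q, Finset.mul_sum]
  rw [Finset.sum_comm]
  refine Finset.sum_congr rfl fun k _ => ?_
  rw [eval_finsetSum, eval_finsetSum, Finset.sum_comm]
  refine Finset.sum_congr rfl fun e _ => ?_
  rw [eval_mul, eval_C, eval_pow, eval_X, eval_mul, eval_mul, eval_pow, eval_C, hw, Finset.mul_sum,
    Finset.sum_mul]
  refine Finset.sum_congr rfl fun i _ => ?_
  ring

theorem relation {K : Type} [Field K] [Algebra ℂ[X] K] [IsFractionRing ℂ[X] K]
    (P E : Polynomial ℂ[X]) (hP : P.Monic) (hirr : Irreducible P)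
    (hdeg : E.degree < P.degree) (hE : E ≠ 0) :
    ∃ (b c : ℂ[X]) (U V : Polynomial ℂ[X]), b ≠ 0 ∧ c ≠ 0 ∧ C (b * c) = U * P + V * E := by
  have hinj : Function.Injective (algebraMap ℂ[X] K) := IsFractionRing.injective ℂ[X] K
  have hK : Irreducible (P.map (algebraMap ℂ[X] K)) :=
    (hP.irreducible_iff_irreducible_map_fraction_map (K := K)).1 hirr
  have hE' : E.map (algebraMap ℂ[X] K) ≠ 0 := (Polynomial.map_ne_zero_iff hinj).2 hE
  have hc : IsCoprime (P.map (algebraMap ℂ[X] K)) (E.map (algebraMap ℂ[X] K)) := by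
    rw [hK.coprime_iff_not_dvd]
    refine Polynomial.not_dvd_of_degree_lt hE' ?_
    rwa [degree_map_eq_of_injective hinj, degree_map_eq_of_injective hinj]
  obtain ⟨U, V, hUV⟩ := hc
  obtain ⟨b, hbm, hb⟩ := IsLocalization.integerNormalization_spec (nonZeroDivisors ℂ[X]) U
  obtain ⟨c, hcm, hcc⟩ := IsLocalization.integerNormalization_spec (nonZeroDivisors ℂ[X]) V
  refine ⟨b, c, C c * IsLocalization.integerNormalization (nonZeroDivisors ℂ[X]) U,
    C b * IsLocalization.integerNormalization (nonZeroDivisors ℂ[X]) V,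
    nonZeroDivisors.ne_zero hbm, nonZeroDivisors.ne_zero hcm, ?_⟩
  apply Polynomial.map_injective _ hinj
  rw [Polynomial.map_add, Polynomial.map_mul, Polynomial.map_mul, Polynomial.map_mul,
    Polynomial.map_mul, map_C, map_C, map_C, hb, hcc, map_mul, C_mul, ← algebraMap_smul K b U,
    ← algebraMap_smul K c V, smul_eq_C_mul, smul_eq_C_mul]
  linear_combination (- (C (algebraMap ℂ[X] K b) * C (algebraMap ℂ[X] K c))) * hUV

theorem eq_zero_of_branch (P E : Polynomial ℂ[X]) (hP : P.Monic) (hirr : Irreducible P)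
    (hdeg : E.degree < P.degree) (ρ : ℝ) (Y : ℂ → ℂ) (h1 : ∀ x, ρ < ‖x‖ → P.evalEval x (Y x) = 0)
    (h2 : ∀ x, ρ < ‖x‖ → E.evalEval x (Y x) = 0) : E = 0 := by
  by_contra hE
  obtain ⟨b, c, U, V, hb0, hc0, hrel⟩ := relation (K := FractionRing ℂ[X]) P E hP hirr hdeg hE
  have hz : b * c = 0 := by
    apply eq_zero_of_infinite_isRoot
    have h3 : {x : ℂ | ρ < ‖x‖} ⊆ {x | IsRoot (b * c) x} := by
      intro x hx
      have h4 := congrArg (fun A : Polynomial ℂ[X] => A.evalEval x (Y x)) hrel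
      simp only [evalEval_add, evalEval_mul, h1 x hx, h2 x hx, mul_zero, add_zero,
        evalEval_C] at h4
      exact h4
    refine Set.Infinite.mono h3 ?_
    refine Set.infinite_of_injective_forall_mem (f := fun n : ℕ => ((|ρ| + 1 + n : ℝ) : ℂ)) ?_ ?_
    · intro m n hmn
      have h5 : (|ρ| + 1 + m : ℝ) = |ρ| + 1 + n := Complex.ofReal_injective hmn
      have h6 : (m : ℝ) = n := by linarith
      exact_mod_cast h6
    · intro n
      show ρ < ‖((|ρ| + 1 + n : ℝ) : ℂ)‖
      rw [Complex.norm_real, Real.norm_eq_abs, abs_of_nonneg (by positivity)]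
      have h7 := le_abs_self ρ
      have h8 : (0 : ℝ) ≤ n := Nat.cast_nonneg n
      linarith
  exact (mul_ne_zero hb0 hc0) hz

theorem core (n : ℕ) (P : Polynomial ℂ[X]) (hP : P.Monic) (hirr : Irreducible P)
    (ρ : ℝ) (Y : Fin n → ℂ → ℂ) (β : Fin n → ℂ)
    (hroot : ∀ x, ρ < ‖x‖ → ∀ i, P.evalEval x (Y i x) = 0)
    (hinj : ∀ x, ρ < ‖x‖ → Function.Injective fun i => Y i x)
    (hder : ∀ x, ρ < ‖x‖ → ∀ i, (derivative P).evalEval x (Y i x) ≠ 0)
    (w : ℕ → ℂ[X]) (hw : ∀ e x, ρ < ‖x‖ → (w e).eval x = ∑ i, β i * Y i x ^ e) :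
    ∀ i j, β i = β j := by
  intro i₁ i₀
  have hB : ∀ x, ρ < ‖x‖ → ∀ j, (Bp P w).evalEval x (Y j x) =
      β j * (derivative P).evalEval x (Y j x) := by
    intro x hx j
    rw [Bp_eval P w β (fun i => Y i x) x (fun e => hw e x hx), ← Q_self]
    refine Finset.sum_eq_single j (fun i _ hij => ?_) (fun h => absurd (Finset.mem_univ j) h)
    have h1 := Q_mul P x (Y j x) (Y i x)
    rw [hroot x hx i, hroot x hx j, sub_zero] at h1
    have h2 : Y i x - Y j x ≠ 0 := sub_ne_zero.2 fun h => hij (hinj x hx h)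
    have h3 := (mul_eq_zero.1 h1).resolve_right h2
    rw [h3, mul_zero]
  have hE : Bp P w - C (C (β i₀)) * derivative P = 0 := by
    refine eq_zero_of_branch P _ hP hirr ?_ ρ (Y i₀) (fun x hx => hroot x hx i₀) ?_
    · refine (degree_sub_le _ _).trans_lt (max_lt (Bp_degree P hP.ne_zero w) ?_)
      refine (degree_mul_le _ _).trans_lt ?_
      calc (C (C (β i₀)) : Polynomial ℂ[X]).degree + (derivative P).degree
          ≤ 0 + (derivative P).degree := by gcongr; exact degree_C_le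
        _ = (derivative P).degree := zero_add _
        _ < P.degree := degree_derivative_lt hP.ne_zero
    · intro x hx
      rw [evalEval_sub, evalEval_mul, hB x hx, evalEval_C, eval_C, sub_self]
  have hx : ρ < ‖((|ρ| + 1 : ℝ) : ℂ)‖ := by
    rw [Complex.norm_real, Real.norm_eq_abs, abs_of_nonneg (by positivity)]
    have h7 := le_abs_self ρ
    linarith
  have h1 := congrArg (fun A : Polynomial ℂ[X] =>
    A.evalEval ((|ρ| + 1 : ℝ) : ℂ) (Y i₁ ((|ρ| + 1 : ℝ) : ℂ))) hE
  simp only [evalEval_sub, evalEval_mul, evalEval_C, eval_C, evalEval_zero] at h1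
  rw [hB _ hx, ← sub_mul] at h1
  exact sub_eq_zero.1 ((mul_eq_zero.1 h1).resolve_right (hder _ hx i₁))

end algebra

section analysis

open Complex Metric Filter Topology

/-- points of the circle -/
noncomputable def ee (r t : ℝ) : ℂ := r * exp (2 * Real.pi * t * I)

theorem ee_ne {r : ℝ} (hr : 0 < r) (t : ℝ) : ee r t ≠ 0 :=
  mul_ne_zero (by exact_mod_cast hr.ne') (exp_ne_zero _)

theorem norm_ee {r : ℝ} (hr : 0 < r) (t : ℝ) : ‖ee r t‖ = r := by
  have h1 : (2 * Real.pi * t * I : ℂ) = ((2 * Real.pi * t : ℝ) : ℂ) * I := by push_cast; ring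
  rw [ee, norm_mul, h1, norm_exp_ofReal_mul_I, mul_one, norm_real, Real.norm_of_nonneg hr.le]

theorem inv_ee {r : ℝ} (t : ℝ) : (ee r t)⁻¹ = ee r⁻¹ (1 - t) := by
  unfold ee
  rw [mul_inv, ← exp_neg]
  have h1 : exp (2 * Real.pi * ((1 - t : ℝ) : ℂ) * I) = exp (-(2 * Real.pi * t * I)) := by
    have h2 : (2 * Real.pi * ((1 - t : ℝ) : ℂ) * I : ℂ) =
        -(2 * Real.pi * t * I) + 2 * Real.pi * I := by push_cast; ring
    rw [h2, exp_add, exp_two_pi_mul_I, mul_one]
  rw [h1]
  push_cast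
  rfl

/-- circle integrals -/
theorem circ (Φ : ℂ → ℂ) (r : ℝ) :
    ∮ z in C(0, r), Φ z = ∫ t in (0 : ℝ)..1, Φ (ee r t) * (2 * Real.pi * I * ee r t) := by
  have h1 := intervalIntegral.smul_integral_comp_mul_left (a := 0) (b := 1)
    (fun θ : ℝ => deriv (circleMap 0 r) θ • Φ (circleMap 0 r θ)) (2 * Real.pi)
  rw [mul_zero, mul_one] at h1
  rw [circleIntegral, ← h1, ← intervalIntegral.integral_smul]
  congr 1
  funext t
  rw [deriv_circleMap]
  have h2 : circleMap 0 r (2 * Real.pi * t) = ee r t := by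
    simp [circleMap, ee]
  rw [h2, smul_eq_mul, real_smul]
  push_cast
  ring

theorem deriv_ee (ρ t : ℝ) : deriv (ee ρ) t = 2 * Real.pi * I * ee ρ t := by
  have h3 : HasDerivAt (ee ρ) ((ρ : ℂ) * (exp (2 * Real.pi * t * I) * (2 * Real.pi * 1 * I))) t := by
    have h4 : HasDerivAt (fun s : ℝ => (2 * Real.pi * (s : ℂ) * I : ℂ)) (2 * Real.pi * 1 * I) t :=
      ((ofRealCLM.hasDerivAt (x := t)).const_mul (2 * Real.pi : ℂ)).mul_const I
    exact (h4.cexp).const_mul (ρ : ℂ)
  rw [h3.deriv, ee]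
  ring

theorem hh (Y : ℂ → ℂ) (α : ℂ) (R : ℝ) (hR : 0 < R) (hY : DifferentiableOn ℂ Y {c | R < ‖c‖})
    (hlimY : Tendsto (fun c => Y c / c) (Bornology.cobounded ℂ) (𝓝 α)) :
    DifferentiableOn ℂ (Function.update (fun v => v * Y v⁻¹) 0 α) (ball 0 R⁻¹) := by
  have hinv : ∀ v ∈ ball (0 : ℂ) R⁻¹, v ≠ 0 → R < ‖v⁻¹‖ := by
    intro v hv hv0
    rw [mem_ball_zero_iff] at hv
    rw [norm_inv]
    rwa [lt_inv_comm₀ hR (norm_pos_iff.mpr hv0)]
  have hopen : IsOpen {c : ℂ | R < ‖c‖} := isOpen_lt continuous_const continuous_norm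
  rw [← differentiableOn_compl_singleton_and_continuousAt_iff (c := 0)
    (isOpen_ball.mem_nhds (mem_ball_self (inv_pos.mpr hR)))]
  constructor
  · intro v hv
    have hv0 : v ≠ 0 := hv.2
    have h1 : DifferentiableAt ℂ (fun v => v * Y v⁻¹) v := by
      apply differentiableAt_id.mul
      apply DifferentiableAt.comp v (g := Y) (f := fun v => v⁻¹)
      · exact hY.differentiableAt (hopen.mem_nhds (hinv v hv.1 hv0))
      · exact differentiableAt_inv hv0
    apply DifferentiableAt.differentiableWithinAt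
    refine h1.congr_of_eventuallyEq ?_
    filter_upwards [isOpen_ne.mem_nhds hv0] with w hw
    exact Function.update_of_ne hw _ _
  · rw [continuousAt_update_same]
    have h1 : Tendsto (fun v : ℂ => v⁻¹) (𝓝[≠] 0) (Bornology.cobounded ℂ) :=
      tendsto_inv₀_nhdsNE_zero
    refine (hlimY.comp h1).congr fun v => ?_
    simp only [Function.comp, div_eq_mul_inv, inv_inv]
    ring

/-- power sums are polynomials -/
theorem exists_w (n : ℕ) (Y : Fin n → ℂ → ℂ) (α : Fin n → ℂ) (R ρ : ℝ) (hR : 0 < R) (hρ : R < ρ)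
    (hd : ∀ i, DifferentiableOn ℂ (Y i) {c | R < ‖c‖})
    (hlim : ∀ i, Tendsto (fun c => Y i c / c) (Bornology.cobounded ℂ) (𝓝 (α i)))
    (β : Fin n → ℂ) (e : ℕ)
    (hint : ∀ a : ℕ, ∫ t in (0 : ℝ)..1,
      (ee ρ t) ^ a * (∑ i, β i * Y i (ee ρ t) ^ e) * (2 * Real.pi * I * ee ρ t) = 0) :
    ∃ w : Polynomial ℂ, ∀ x, ρ < ‖x‖ → w.eval x = ∑ i, β i * Y i x ^ e := by
  have hρ0 : 0 < ρ := hR.trans hρ
  set r : ℝ := ρ⁻¹ with hrdef
  have hr0 : 0 < r := inv_pos.mpr hρ0
  have hrR : r < R⁻¹ := (inv_lt_inv₀ hρ0 hR).mpr hρ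
  have hsub : closedBall (0 : ℂ) r ⊆ ball 0 R⁻¹ := closedBall_subset_ball hrR
  set V : ℂ → ℂ := fun v => ∑ i, β i * (Function.update (fun v => v * Y i v⁻¹) 0 (α i)) v ^ e with hV
  have hVd : DifferentiableOn ℂ V (ball 0 R⁻¹) := by
    refine DifferentiableOn.fun_sum fun i _ => ?_
    exact ((hh (Y i) (α i) R hR (hd i) (hlim i)).fun_pow e).const_mul (β i)
  have hVv : ∀ v, v ≠ 0 → V v = v ^ e * ∑ i, β i * Y i v⁻¹ ^ e := by
    intro v hv
    rw [hV, Finset.mul_sum]
    refine Finset.sum_congr rfl fun i _ => ?_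
    rw [Function.update_of_ne hv, mul_pow]
    ring
  obtain ⟨r', hr'⟩ : ∃ r' : NNReal, (r' : ℝ) = r := ⟨⟨r, hr0.le⟩, rfl⟩
  have hps : HasFPowerSeriesOnBall V (cauchyPowerSeries V 0 (r' : ℝ)) 0 (r' : ENNReal) := by
    refine DifferentiableOn.hasFPowerSeriesOnBall (hVd.mono ?_) ?_
    · rw [hr']; exact hsub
    · rw [← NNReal.coe_pos, hr']; exact hr0
  have hzero : ∀ m : ℕ, e < m → ∀ w : ℂ, cauchyPowerSeries V 0 r m (fun _ => w) = 0 := by
    intro m hm w
    rw [cauchyPowerSeries_apply]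
    obtain ⟨a, rfl⟩ : ∃ a, m = e + 1 + a := ⟨m - (e + 1), by omega⟩
    have h1 : ∮ z in C(0, r), (w / (z - 0)) ^ (e + 1 + a) • (z - 0)⁻¹ • V z = 0 := by
      rw [circ]
      have h2 := hint a
      have h3 : ∀ t : ℝ, (w / (ee r t - 0)) ^ (e + 1 + a) • (ee r t - 0)⁻¹ • V (ee r t) *
          (2 * Real.pi * I * ee r t) = w ^ (e + 1 + a) *
          (fun s : ℝ => (ee ρ s) ^ a * (∑ i, β i * Y i (ee ρ s) ^ e) * (2 * Real.pi * I * ee ρ s))
          (1 - t) := by
        intro t
        have h4 : ee r t ≠ 0 := ee_ne hr0 t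
        have h5 : ee ρ (1 - t) = (ee r t)⁻¹ := by rw [inv_ee, hrdef, inv_inv]
        simp only [smul_eq_mul, sub_zero]
        rw [h5, hVv _ h4]
        generalize ∑ i, β i * Y i (ee r t)⁻¹ ^ e = S
        generalize ee r t = z at h4
        have h6 : z ^ (e + 1 + a) = z ^ e * z * z ^ a := by ring
        rw [div_pow, inv_pow, h6]
        field_simp
      rw [intervalIntegral.integral_congr (fun t _ => h3 t), intervalIntegral.integral_const_mul,
        intervalIntegral.integral_comp_sub_left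
        (fun s : ℝ => (ee ρ s) ^ a * (∑ i, β i * Y i (ee ρ s) ^ e) * (2 * Real.pi * I * ee ρ s)) 1,
        sub_self, sub_zero, h2, mul_zero]
    rw [h1, smul_zero]
  set c : ℕ → ℂ := fun j => cauchyPowerSeries V 0 r j (fun _ => 1) with hc
  have hVsum : ∀ v, ‖v‖ < r → V v = ∑ j ∈ Finset.range (e + 1), v ^ j * c j := by
    intro v hv
    have hv' : v ∈ Metric.eball (0 : ℂ) (r' : ENNReal) := by
      rw [Metric.mem_eball, edist_zero_right, ← ofReal_norm,
        ENNReal.ofReal_lt_coe_iff (norm_nonneg v), hr']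
      exact hv
    have h1 := hps.hasSum hv'
    rw [zero_add, hr'] at h1
    have h2 : ∀ j, (cauchyPowerSeries V 0 r j fun _ => v) = v ^ j * c j := by
      intro j
      show (cauchyPowerSeries V 0 r j fun _ => v) = v ^ j * (cauchyPowerSeries V 0 r j fun _ => 1)
      rw [cauchyPowerSeries_apply, cauchyPowerSeries_apply]
      simp only [smul_eq_mul]
      rw [mul_left_comm, ← circleIntegral.integral_const_mul (v ^ j)]
      congr 2
      funext z
      rw [div_pow, div_pow, one_pow]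
      ring
    simp only [h2] at h1
    refine h1.unique (hasSum_sum_of_ne_finset_zero fun j hj => ?_)
    rw [← h2]
    exact hzero j (by rw [Finset.mem_range] at hj; omega) v
  refine ⟨∑ j ∈ Finset.range (e + 1), Polynomial.C (c j) * Polynomial.X ^ (e - j), fun x hx => ?_⟩
  have hx0 : x ≠ 0 := norm_pos_iff.1 (hρ0.trans hx)
  have h1 := hVsum x⁻¹ (by rw [norm_inv, hrdef]; exact (inv_lt_inv₀ (hρ0.trans hx) hρ0).2 hx)
  rw [hVv _ (inv_ne_zero hx0), inv_inv] at h1
  have h2 : ∑ i, β i * Y i x ^ e = x ^ e * ∑ j ∈ Finset.range (e + 1), x⁻¹ ^ j * c j := by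
    rw [← h1, ← mul_assoc, ← mul_pow, mul_inv_cancel₀ hx0, one_pow, one_mul]
  rw [h2, Polynomial.eval_finsetSum, Finset.mul_sum]
  refine Finset.sum_congr rfl fun j hj => ?_
  rw [Polynomial.eval_mul, Polynomial.eval_C, Polynomial.eval_pow, Polynomial.eval_X]
  rw [Finset.mem_range] at hj
  have h3 : x ^ e = x ^ (e - j) * x ^ j := by rw [← pow_add]; congr 1; omega
  rw [h3, inv_pow]
  field_simp

end analysis

section main

open Complex Filter Topology Polynomial Pool.Agent.N65.GP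

theorem poly_monic {k : Subfield ℂ} (Cv : Crv k) : Cv.poly.Monic ∧ Cv.poly.natDegree = Cv.n := by
  have h1 : ∀ i, (X - Polynomial.C (Polynomial.C (Cv.α i) * X) : Polynomial ℂ[X]).Monic :=
    fun i => monic_X_sub_C _
  have h2 : (∏ i, (X - Polynomial.C (Polynomial.C (Cv.α i) * X) : Polynomial ℂ[X])).Monic :=
    monic_prod_of_monic _ _ fun i _ => h1 i
  have h3 : (∏ i, (X - Polynomial.C (Polynomial.C (Cv.α i) * X) : Polynomial ℂ[X])).natDegree =
      Cv.n := by
    rw [natDegree_prod_of_monic _ _ fun i _ => h1 i]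
    simp only [natDegree_X_sub_C, Finset.sum_const, Finset.card_univ, Fintype.card_fin,
      smul_eq_mul, mul_one]
  have h4 : (∑ i ∈ Finset.range Cv.n, ∑ j ∈ Finset.range (Cv.n - i),
      Polynomial.C (Polynomial.C (Cv.a i j) * X ^ i) * X ^ j : Polynomial ℂ[X]).degree <
      (∏ i, (X - Polynomial.C (Polynomial.C (Cv.α i) * X) : Polynomial ℂ[X])).degree := by
    rw [degree_eq_natDegree h2.ne_zero, h3, degree_lt_iff_coeff_zero]
    intro m hm
    rw [finsetSum_coeff]
    refine Finset.sum_eq_zero fun i hi => ?_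
    rw [finsetSum_coeff]
    refine Finset.sum_eq_zero fun j hj => ?_
    rw [Finset.mem_range] at hi hj
    rw [coeff_C_mul_X_pow, if_neg]
    omega
  refine ⟨h2.add_of_left h4, ?_⟩
  rw [Crv.poly, natDegree_add_eq_left_of_degree_lt h4, h3]

theorem poly_eval {k : Subfield ℂ} (Cv : Crv k) (x y : ℂ) : Cv.poly.evalEval x y = Cv.F x y := by
  unfold Crv.poly Crv.F Fp
  rw [evalEval, eval_add, eval_add, eval_prod, eval_prod, eval_finsetSum, eval_finsetSum]
  congr 1
  · refine Finset.prod_congr rfl fun i _ => ?_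
    simp
  · refine Finset.sum_congr rfl fun i _ => ?_
    rw [eval_finsetSum, eval_finsetSum]
    refine Finset.sum_congr rfl fun j _ => ?_
    simp

theorem poly_deriv {k : Subfield ℂ} (Cv : Crv k) (x y : ℂ) :
    (derivative Cv.poly).evalEval x y = Cv.Fy x y := by
  have h1 : (fun t => Cv.F x t) = fun t => (Cv.poly.map (evalRingHom x)).eval t := by
    funext t
    rw [map_evalRingHom_eval, poly_eval]
  rw [Crv.Fy, h1, Polynomial.deriv, ← map_evalRingHom_eval, derivative_map]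

theorem t_IRR : S_IRR := by
  intro k Cv R b ρ δ hρ hδ hirr β h
  obtain ⟨hmon, -⟩ := poly_monic Cv
  have hxe : ∀ i, (δ i).x = ee ρ := fun i => by
    funext s
    exact (hδ i).1 s
  have hint : ∀ e a : ℕ, ∫ t in (0 : ℝ)..1,
      (ee ρ t) ^ a * (∑ i, (β i : ℂ) * b.yb i (ee ρ t) ^ e) * (2 * Real.pi * I * ee ρ t) = 0 := by
    intro e a
    have h1 := h (Polynomial.C (X ^ a) * X ^ e)
    have hi : ∀ i, (δ i).int (fun x y => (Polynomial.C (X ^ a) * X ^ e : Polynomial ℂ[X]).evalEval x y)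
        = ∫ t in (0 : ℝ)..1, (ee ρ t) ^ a * (b.yb i (ee ρ t)) ^ e * (2 * Real.pi * I * ee ρ t) := by
      intro i
      unfold Loop.int
      refine intervalIntegral.integral_congr fun t _ => ?_
      show (Polynomial.C (X ^ a) * X ^ e : Polynomial ℂ[X]).evalEval ((δ i).x t) ((δ i).y t) *
        deriv (δ i).x t = _
      rw [(hδ i).2 t, hxe i, deriv_ee, evalEval_mul, evalEval_C, eval_pow, eval_X, evalEval_pow,
        evalEval_X]
    simp only [hi] at h1
    have hs : ∀ t : ℝ, (ee ρ t) ^ a * (∑ i, (β i : ℂ) * b.yb i (ee ρ t) ^ e) *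
        (2 * Real.pi * I * ee ρ t) = ∑ i, (β i : ℂ) * ((ee ρ t) ^ a * (b.yb i (ee ρ t)) ^ e *
          (2 * Real.pi * I * ee ρ t)) := by
      intro t
      rw [Finset.mul_sum, Finset.sum_mul]
      refine Finset.sum_congr rfl fun i _ => ?_
      ring
    have hc : ∀ i, Continuous fun t : ℝ => (β i : ℂ) * ((ee ρ t) ^ a * (b.yb i (ee ρ t)) ^ e *
          (2 * Real.pi * I * ee ρ t)) := by
      intro i
      have h2 : Continuous (ee ρ) := by
        unfold ee
        fun_prop
      have h3 : Continuous fun t => b.yb i (ee ρ t) := by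
        have h4 : (fun t => b.yb i (ee ρ t)) = (δ i).y := by
          funext t
          rw [(hδ i).2 t, hxe i]
        rw [h4]
        exact (δ i).hy.continuous
      fun_prop
    rw [← h1, intervalIntegral.integral_congr (fun t _ => hs t),
      intervalIntegral.integral_finsetSum fun i _ => (hc i).intervalIntegrable _ _]
    refine Finset.sum_congr rfl fun i _ => ?_
    rw [intervalIntegral.integral_const_mul]
  choose w hw using fun e => exists_w Cv.n b.yb Cv.α R ρ b.pos hρ b.diffY b.limY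
    (fun i => (β i : ℂ)) e (hint e)
  intro i j
  have h2 := core Cv.n Cv.poly hmon hirr ρ b.yb (fun i => (β i : ℂ))
    (fun x hx i => by
      rw [poly_eval]
      exact (b.rootY x (hρ.trans hx) _).2 ⟨i, rfl⟩)
    (fun x hx => b.injY x (hρ.trans hx))
    (fun x hx i => by
      rw [poly_deriv]
      exact b.Fy_ne i x (hρ.trans hx)) w hw i j
  exact_mod_cast h2

end main

end Pool.Agent.N543.GP2
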